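import Mathlib

/-!
# Weakly left duo rings are left Dischinger

Rings are associative and need not have an identity element.
-/

namespace Pool.Agent.Results.MP_1cad20_al.LeftDischinger

section Defs

variable {R : Type*} [NonUnitalRing R]

/-- `ppow a n` is the power `a ^ (n + 1)`. -/
def ppow (a : R) : ℕ → R
  | 0 => a
  | n + 1 => ppow a n * a

/-- `I` is a two-sided ideal. -/
def IsTwoSidedIdeal (I : Set R) : Prop :=
  0 ∈ I ∧ (∀ x ∈ I, ∀ y ∈ I, x + y ∈ I) ∧ (∀ x ∈ I, -x ∈ I) ∧
    (∀ x ∈ I, ∀ r : R, r * x ∈ I ∧ x * r ∈ I)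

/-- `R` is weakly left duo: for every `a` there is an exponent `n + 1 ≥ 1` such that
`R a ^ (n + 1) = {r a ^ (n + 1) : r ∈ R}` is a two-sided ideal. -/
def WeaklyLeftDuo (R : Type*) [NonUnitalRing R] : Prop :=
  ∀ a : R, ∃ n : ℕ, IsTwoSidedIdeal {y : R | ∃ r : R, y = r * ppow a n}

/-- `a` is left strongly regular: `a = x a²`. -/
def LeftStronglyRegular (a : R) : Prop := ∃ x : R, a = x * (a * a)

/-- `a` is right strongly regular: `a = a² x`. -/
def RightStronglyRegular (a : R) : Prop := ∃ x : R, a = a * a * x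

/-- `R` is left Dischinger: every left strongly regular element is strongly regular, i.e. left and
right strongly regular. -/
def LeftDischingerRing (R : Type*) [NonUnitalRing R] : Prop :=
  ∀ a : R, LeftStronglyRegular a → LeftStronglyRegular a ∧ RightStronglyRegular a

end Defs

section Proof

variable {R : Type*} [NonUnitalRing R]

/-- The weakly left duo condition in the form in which it is used. -/
theorem duo (h : WeaklyLeftDuo R) (a : R) :
    ∃ n : ℕ, ∀ r s : R, ∃ t : R, r * ppow a n * s = t * ppow a n := by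
  obtain ⟨n, -, -, -, h4⟩ := h a
  exact ⟨n, fun r s => (h4 _ ⟨r, rfl⟩ s).2⟩

theorem ppow_idem {g : R} (hg : g * g = g) (n : ℕ) : ppow g n = g := by
  induction n with
  | zero => rfl
  | succ n ih => rw [ppow, ih, hg]

/-- In a weakly left duo ring, `g r = g r g` for `g` idempotent. -/
theorem duo_idem (h : WeaklyLeftDuo R) {g : R} (hg : g * g = g) (r : R) : g * r = g * r * g := by
  obtain ⟨n, hn⟩ := duo h g
  obtain ⟨t, ht⟩ := hn g r
  rw [ppow_idem hg, hg] at ht
  rw [ht, mul_assoc, hg]

theorem map_ppow {S : Type*} [Ring S] (j : R →ₙ+* S) (a : R) (n : ℕ) :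
    j (ppow a n) = j a ^ (n + 1) := by
  induction n with
  | zero => simp [ppow]
  | succ n ih => rw [ppow, map_mul, ih, pow_succ _ (n + 1)]

/-- Idempotent lifting: if `e = x a`, `e a = a` and `e - e²` is nilpotent, there is an idempotent
`g` in `R a` with `g a = a`. -/
theorem lift_idem_aux {S : Type*} [Ring S] (j : R →ₙ+* S) (hj : Function.Injective j)
    (hjj : ∀ (p : S) (x : R), ∃ y : R, p * j x = j y) (a x e : R) (he : e = x * a)
    (hea : e * a = a) (n : ℕ) (hn : ppow (e - e * e) n = 0) :
    ∃ g r : R, g = r * a ∧ g * a = a ∧ g * g = g := by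
  have hE : j e = j x * j a := by rw [← map_mul, ← he]
  have hEA : j e * j a = j a := by rw [← map_mul, hea]
  have hnil : (j e - j e ^ 2) ^ (n + 1) = 0 := by
    have h1 : j e - j e ^ 2 = j (e - e * e) := by rw [map_sub, map_mul, pow_two]
    rw [h1, ← map_ppow, hn, map_zero]
  have hid := isIdempotentElem_one_sub_one_sub_pow_pow (j e) (n + 1) hnil
  set E : S := j e
  set G : S := 1 - (1 - E ^ (n + 1)) ^ (n + 1) with hG
  obtain ⟨P, hP⟩ : ∃ P : S, G = P * E := by
    refine ⟨(∑ i ∈ Finset.range (n + 1), (1 - E ^ (n + 1)) ^ i) * E ^ n, ?_⟩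
    have h1 := geom_sum_mul (1 - E ^ (n + 1)) (n + 1)
    have h2 : (∑ i ∈ Finset.range (n + 1), (1 - E ^ (n + 1)) ^ i) * E ^ (n + 1) =
        -((∑ i ∈ Finset.range (n + 1), (1 - E ^ (n + 1)) ^ i) * (1 - E ^ (n + 1) - 1)) := by
      rw [← mul_neg]; congr 1; abel
    rw [mul_assoc, ← pow_succ, h2, h1, hG]; abel
  obtain ⟨r, hr⟩ := hjj P x
  have hGr : G = j (r * a) := by
    rw [hP, hE, ← mul_assoc, hr, map_mul]
  have hEk : ∀ k : ℕ, E ^ k * j a = j a := by
    intro k
    induction k with
    | zero => simp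
    | succ k ih => rw [pow_succ, mul_assoc, hEA, ih]
  have hGA : G * j a = j a := by
    rw [hG, sub_mul, one_mul, pow_succ, mul_assoc, sub_mul, one_mul, hEk, sub_self, mul_zero,
      sub_zero]
  refine ⟨r * a, r, rfl, ?_, ?_⟩
  · apply hj
    rw [map_mul, ← hGr]; exact hGA
  · apply hj
    rw [map_mul, ← hGr]; exact hid

theorem lift_idem (a x e : R) (he : e = x * a) (hea : e * a = a) (n : ℕ)
    (hn : ppow (e - e * e) n = 0) : ∃ g r : R, g = r * a ∧ g * a = a ∧ g * g = g := by
  refine lift_idem_aux (S := Unitization ℤ R) (Unitization.inrNonUnitalAlgHom ℤ R : R →ₙ+* _)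
    Unitization.inr_injective ?_ a x e he hea n hn
  intro p x
  refine ⟨p.fst • x + p.snd * x, ?_⟩
  change p * (x : Unitization ℤ R) = ((p.fst • x + p.snd * x : R) : Unitization ℤ R)
  conv_lhs => rw [← Unitization.inl_fst_add_inr_snd_eq p]
  rw [add_mul, Unitization.inl_mul_inr, ← Unitization.inr_mul, ← Unitization.inr_add]

theorem main (h : WeaklyLeftDuo R) (a x : R) (hax : a = x * (a * a)) :
    ∃ y : R, a = a * a * y := by
  -- `e = x a` satisfies `e a = a`
  set e := x * a with he
  have hea : e * a = a := by rw [he, mul_assoc, ← hax]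
  -- `R a ⊆ R a ^ n` for all `n`
  have hRa : ∀ (n : ℕ) (r : R), ∃ s : R, r * a = s * ppow a n := by
    intro n
    induction n with
    | zero => exact fun r => ⟨r, rfl⟩
    | succ n ih =>
      intro r
      obtain ⟨s, hs⟩ := ih (r * x)
      refine ⟨s, ?_⟩
      have : r * a = r * x * a * a := by
        conv_lhs => rw [hax]
        simp only [mul_assoc]
      rw [this, hs, ppow, mul_assoc]
  have hpow : ∀ (n : ℕ) (t : R), ∃ s : R, t * ppow a n = s * a := by
    intro n t
    cases n with
    | zero => exact ⟨t, rfl⟩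
    | succ n => exact ⟨t * ppow a n, by rw [ppow, mul_assoc]⟩
  -- hence `R a` is a right ideal
  have hRaR : ∀ r s : R, ∃ t : R, r * a * s = t * a := by
    intro r s
    obtain ⟨n, hn⟩ := duo h a
    obtain ⟨r', hr'⟩ := hRa n r
    obtain ⟨t, ht⟩ := hn r' s
    rw [hr', ht]
    exact hpow n t
  -- `f = e - e²` is nilpotent
  set f := e - e * e with hf
  have hfa : f * a = 0 := by rw [hf, sub_mul, mul_assoc e e a, hea, hea, sub_self]
  obtain ⟨w, hw⟩ : ∃ w : R, f = w * a := by
    refine ⟨x - x * a * x, ?_⟩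
    rw [hf, he, sub_mul]; simp only [mul_assoc]
  obtain ⟨m, hm⟩ := duo h f
  have hpa : ppow f m * a = 0 := by
    cases m with
    | zero => exact hfa
    | succ m => rw [ppow, mul_assoc, hfa, mul_zero]
  have hcomm : ∀ k, ppow f k * f = f * ppow f k := by
    intro k
    induction k with
    | zero => rfl
    | succ k ih => rw [ppow, ih, mul_assoc, ih]
  have hnil : ppow f (m + 2) = 0 := by
    have h1 : ppow f (m + 2) = f * ppow f m * f := by
      rw [ppow, ppow, hcomm]
    obtain ⟨t, ht⟩ := hm f w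
    have h2 : f * ppow f m * f = f * ppow f m * w * a := by
      rw [mul_assoc (f * ppow f m) w a, ← hw]
    rw [h1, h2, ht, mul_assoc, hpa, mul_zero]
  -- the idempotent `g`
  obtain ⟨g, r, hgr, hga, hgg⟩ := lift_idem a x e he hea (m + 2) hnil
  have hag : a * g = a := by
    have := duo_idem h hgg a
    rw [hga] at this
    exact this.symm
  set b := g * r * g with hb
  have hba : b * a = g := by
    rw [hb, ← duo_idem h hgg r, mul_assoc, ← hgr, hgg]
  have hgb : g * b = b := by rw [hb, ← mul_assoc, ← mul_assoc, hgg]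
  have hbg : b * g = b := by rw [hb, mul_assoc, hgg]
  -- the idempotent `q = g - a b`
  set q := g - a * b with hq
  have hbq : b * q = 0 := by
    rw [hq, mul_sub, hbg, ← mul_assoc, hba, hgb, sub_self]
  have hqq : q * q = q := by
    have h1 : q * q = g * q - a * (b * q) := by rw [← mul_assoc, ← sub_mul]
    rw [h1, hbq, mul_zero, sub_zero, hq, mul_sub, hgg, ← mul_assoc, hga]
  have hqb : q * b = 0 := by
    rw [duo_idem h hqq b, mul_assoc, hbq, mul_zero]
  have hb2 : b = a * b * b := by
    have : q * b = b - a * b * b := by rw [hq, sub_mul, hgb]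
    rw [hqb] at this
    exact (sub_eq_zero.mp this.symm)
  have hab : a * b = g := by
    calc a * b = a * b * g := by rw [mul_assoc, hbg]
      _ = a * b * (b * a) := by rw [hba]
      _ = (a * b * b) * a := by simp only [mul_assoc]
      _ = b * a := by rw [← hb2]
      _ = g := hba
  exact ⟨b, by rw [mul_assoc, hab, hag]⟩

end Proof

/-- Every weakly left duo ring (not necessarily with identity) is left Dischinger. -/
theorem result : ∀ (R : Type*) [NonUnitalRing R], WeaklyLeftDuo R → LeftDischingerRing R := by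
  intro R _ h a ha
  obtain ⟨x, hx⟩ := ha
  exact ⟨⟨x, hx⟩, main h a x hx⟩

end Pool.Agent.Results.MP_1cad20_al.LeftDischinger
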